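import Mathlib

open Finset

noncomputable section

namespace H9INV

/-- indicator of a proposition, as a real number -/
def ind (P : Prop) : ℝ := @ite ℝ P (Classical.propDecidable P) 1 0

theorem ind_pos {P : Prop} (h : P) : ind P = 1 := by unfold ind; rw [if_pos h]
theorem ind_neg {P : Prop} (h : ¬ P) : ind P = 0 := by unfold ind; rw [if_neg h]
theorem ind_nonneg (P : Prop) : 0 ≤ ind P := by
  by_cases h : P
  · rw [ind_pos h]; norm_num
  · rw [ind_neg h]
theorem ind_le_one (P : Prop) : ind P ≤ 1 := by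
  by_cases h : P
  · rw [ind_pos h]
  · rw [ind_neg h]; norm_num
theorem ind_congr {P Q : Prop} (h : P ↔ Q) : ind P = ind Q := by rw [propext h]
theorem ind_mono {P Q : Prop} (h : P → Q) : ind P ≤ ind Q := by
  by_cases hp : P
  · rw [ind_pos hp, ind_pos (h hp)]
  · rw [ind_neg hp]; exact ind_nonneg _
theorem ind_and (P Q : Prop) : ind (P ∧ Q) = ind P * ind Q := by
  by_cases hp : P
  · rw [ind_pos hp, one_mul]; exact ind_congr (by tauto)
  · rw [ind_neg hp, zero_mul]; exact ind_neg (by tauto)

/-- probability weights on a finite type -/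
structure IsP {Om : Type*} [Fintype Om] (p : Om → ℝ) : Prop where
  nn : ∀ w, 0 ≤ p w
  one : ∑ w, p w = 1

/-- mass of the cell of `X` containing `w` -/
def cell {Om A : Type*} [Fintype Om] (p : Om → ℝ) (X : Om → A) (w : Om) : ℝ :=
  ∑ v, ind (X v = X w) * p v

/-- Shannon entropy (nats) of `X` under the weights `p` -/
def Hh {Om A : Type*} [Fintype Om] (p : Om → ℝ) (X : Om → A) : ℝ :=
  - ∑ w, p w * Real.log (cell p X w)

section basic
variable {Om A B C D : Type*} [Fintype Om] {p : Om → ℝ}

theorem cell_congr {X : Om → A} {Y : Om → B} (h : ∀ v w, X v = X w ↔ Y v = Y w) (w : Om) :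
    cell p X w = cell p Y w := by
  unfold cell
  exact sum_congr rfl fun v _ => by rw [ind_congr (h v w)]

theorem Hh_congr {X : Om → A} {Y : Om → B} (h : ∀ v w, X v = X w ↔ Y v = Y w) :
    Hh p X = Hh p Y := by
  unfold Hh
  congr 1
  exact sum_congr rfl fun w _ => by rw [cell_congr h]

theorem cell_nonneg (hp : ∀ w, 0 ≤ p w) (X : Om → A) (w : Om) : 0 ≤ cell p X w :=
  sum_nonneg fun v _ => mul_nonneg (ind_nonneg _) (hp v)

theorem le_cell (hp : ∀ w, 0 ≤ p w) (X : Om → A) (w : Om) : p w ≤ cell p X w := by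
  unfold cell
  have := single_le_sum (f := fun v => ind (X v = X w) * p v)
    (fun v _ => mul_nonneg (ind_nonneg _) (hp v)) (mem_univ w)
  simpa [ind_pos] using this

theorem cell_pos (hp : ∀ w, 0 ≤ p w) (X : Om → A) {w : Om} (hw : 0 < p w) : 0 < cell p X w :=
  lt_of_lt_of_le hw (le_cell hp X w)

theorem cell_mono (hp : ∀ w, 0 ≤ p w) {X : Om → A} {Y : Om → B}
    (h : ∀ v w, X v = X w → Y v = Y w) (w : Om) : cell p X w ≤ cell p Y w := by
  unfold cell
  exact sum_le_sum fun v _ => mul_le_mul_of_nonneg_right (ind_mono (h v w)) (hp v)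

theorem cell_le_one (hp : IsP p) (X : Om → A) (w : Om) : cell p X w ≤ 1 := by
  rw [← hp.one]
  unfold cell
  refine sum_le_sum fun v _ => ?_
  calc ind (X v = X w) * p v ≤ 1 * p v := mul_le_mul_of_nonneg_right (ind_le_one _) (hp.nn v)
    _ = p v := one_mul _

theorem cell_eq_of {X : Om → A} {v w : Om} (h : X v = X w) : cell p X v = cell p X w := by
  unfold cell; rw [h]

/-- a function of `X` has smaller entropy -/
theorem Hh_mono (hp : ∀ w, 0 ≤ p w) {X : Om → A} {Y : Om → B}
    (h : ∀ v w, X v = X w → Y v = Y w) : Hh p Y ≤ Hh p X := by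
  unfold Hh
  rw [neg_le_neg_iff]
  refine sum_le_sum fun w _ => ?_
  rcases (hp w).eq_or_lt with h0 | h0
  · rw [← h0]; simp
  · exact mul_le_mul_of_nonneg_left
      (Real.log_le_log (cell_pos hp X h0) (cell_mono hp h w)) h0.le

theorem Hh_nonneg (hp : IsP p) (X : Om → A) : 0 ≤ Hh p X := by
  unfold Hh
  rw [← sum_neg_distrib]
  refine sum_nonneg fun w _ => ?_
  rw [← mul_neg]
  refine mul_nonneg (hp.nn w) ?_
  rw [neg_nonneg]
  exact Real.log_nonpos (cell_nonneg hp.nn X w) (cell_le_one hp X w)

theorem Hh_const (hp : IsP p) {X : Om → A} (h : ∀ v w, X v = X w) : Hh p X = 0 := by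
  unfold Hh
  have : ∀ w, cell p X w = 1 := fun w => by
    unfold cell
    rw [← hp.one]
    exact sum_congr rfl fun v _ => by rw [ind_pos (h v w), one_mul]
  simp [this]

/-- log x <= x - 1 in summed form -/
theorem sum_log_le (hp : IsP p) {q : Om → ℝ} (hq : ∀ w, 0 < p w → 0 < q w)
    (hs : ∑ w, p w * q w ≤ 1) : ∑ w, p w * Real.log (q w) ≤ 0 := by
  have h1 : ∀ w, p w * Real.log (q w) ≤ p w * q w - p w := fun w => by
    rcases (hp.nn w).eq_or_lt with h0 | h0
    · rw [← h0]; simp
    · have := Real.log_le_sub_one_of_pos (hq w h0)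
      nlinarith
  calc ∑ w, p w * Real.log (q w) ≤ ∑ w, (p w * q w - p w) := sum_le_sum fun w _ => h1 w
    _ = ∑ w, p w * q w - 1 := by rw [sum_sub_distrib, hp.one]
    _ ≤ 0 := by linarith

theorem sum_div_cell (X : Om → A) (w : Om) :
    ∑ v, ind (X v = X w) * (p v / cell p X v) ≤ 1 := by
  have : ∑ v, ind (X v = X w) * (p v / cell p X v) = cell p X w / cell p X w := by
    conv_rhs => rw [cell, sum_div]
    refine sum_congr rfl fun v _ => ?_
    by_cases h : X v = X w
    · rw [ind_pos h, cell_eq_of h, one_mul, one_mul]; rfl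
    · rw [ind_neg h]; simp
  rw [this]
  exact div_self_le_one _

theorem sum_div_cell' (X : Om → A) (w : Om) (hw : cell p X w ≠ 0) :
    ∑ v, ind (X v = X w) * (p v / cell p X v) = 1 := by
  have : ∑ v, ind (X v = X w) * (p v / cell p X v) = cell p X w / cell p X w := by
    conv_rhs => rw [cell, sum_div]
    refine sum_congr rfl fun v _ => ?_
    by_cases h : X v = X w
    · rw [ind_pos h, cell_eq_of h, one_mul, one_mul]; rfl
    · rw [ind_neg h]; simp
  rw [this]
  exact div_self hw

/-- Submodularity of entropy. -/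
theorem Hh_submod (hp : IsP p) (X : Om → A) (Y : Om → B) (Z : Om → C) :
    Hh p (fun w => (X w, Y w, Z w)) + Hh p Z
      ≤ Hh p (fun w => (X w, Z w)) + Hh p (fun w => (Y w, Z w)) := by
  set cx := cell p (fun w => (X w, Z w)) with hcx
  set cy := cell p (fun w => (Y w, Z w)) with hcy
  set cz := cell p Z with hcz
  set ct := cell p (fun w => (X w, Y w, Z w)) with hct
  have key : ∑ w, p w * Real.log (cx w * cy w / (ct w * cz w)) ≤ 0 := by
    refine sum_log_le hp (fun w hw => ?_) ?_
    · have h1 := cell_pos hp.nn (fun w => (X w, Z w)) hw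
      have h2 := cell_pos hp.nn (fun w => (Y w, Z w)) hw
      have h3 := cell_pos hp.nn Z hw
      have h4 := cell_pos hp.nn (fun w => (X w, Y w, Z w)) hw
      positivity
    · -- expand
      have e1 : ∀ w, p w * (cx w * cy w / (ct w * cz w))
          = ∑ a, ∑ b, (ind ((X a, Z a) = (X w, Z w)) * ind ((Y b, Z b) = (Y w, Z w)))
              * (p a * p b * (p w / (ct w * cz w))) := by
        intro w
        have : p w * (cx w * cy w / (ct w * cz w)) = cx w * cy w * (p w / (ct w * cz w)) := by ring
        rw [this, hcx, hcy]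
        unfold cell
        rw [sum_mul_sum, sum_mul]
        refine sum_congr rfl fun a _ => ?_
        rw [sum_mul]
        refine sum_congr rfl fun b _ => ?_
        ring
      rw [sum_congr rfl fun w _ => e1 w]
      rw [sum_comm]
      rw [sum_congr rfl fun a _ => sum_comm]
      -- now ∑ a ∑ b ∑ w
      have e2 : ∀ a b, ∑ w, (ind ((X a, Z a) = (X w, Z w)) * ind ((Y b, Z b) = (Y w, Z w)))
              * (p a * p b * (p w / (ct w * cz w)))
          ≤ ind (Z b = Z a) * (p a * p b / cz a) := by
        intro a b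
        have h5 : 0 ≤ p a * p b / cz a :=
          div_nonneg (mul_nonneg (hp.nn a) (hp.nn b)) (cell_nonneg hp.nn Z a)
        by_cases hne : ∃ w0, (X a, Z a) = (X w0, Z w0) ∧ (Y b, Z b) = (Y w0, Z w0)
        · obtain ⟨w0, h1, h2⟩ := hne
          simp only [Prod.mk.injEq] at h1 h2
          have hz : Z b = Z a := by rw [h2.2, h1.2]
          rw [ind_pos hz, one_mul]
          have h3 : ∀ w, (ind ((X a, Z a) = (X w, Z w)) * ind ((Y b, Z b) = (Y w, Z w)))
              * (p a * p b * (p w / (ct w * cz w)))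
            = (p a * p b / cz a) * (ind ((X w, Y w, Z w) = (X w0, Y w0, Z w0)) * (p w / ct w)) := by
            intro w
            by_cases hw : X w = X w0 ∧ Y w = Y w0 ∧ Z w = Z w0
            · obtain ⟨q1, q2, q3⟩ := hw
              rw [ind_pos (by simp [h1.1, h1.2, q1, q3]), ind_pos (by simp [h2.1, h2.2, q2, q3]),
                ind_pos (by simp [q1, q2, q3])]
              have : cz w = cz a := by
                rw [hcz]; exact cell_eq_of (by rw [q3, h1.2])
              rw [this]
              by_cases hc0 : ct w = 0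
              · rw [hc0]; simp
              by_cases hz0 : cz a = 0
              · rw [hz0]; simp
              field_simp
            · rw [ind_neg (P := (X w, Y w, Z w) = (X w0, Y w0, Z w0)) (by simpa using hw)]
              rw [← ind_and, ind_neg]
              · ring
              · rintro ⟨hc, hd⟩
                simp only [Prod.mk.injEq] at hc hd
                exact hw ⟨by rw [← hc.1, h1.1], by rw [← hd.1, h2.1], by rw [← hc.2, h1.2]⟩
          rw [sum_congr rfl fun w _ => h3 w, ← mul_sum]
          have h4 := sum_div_cell (p := p) (fun w => (X w, Y w, Z w)) w0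
          calc _ ≤ (p a * p b / cz a) * 1 := mul_le_mul_of_nonneg_left h4 h5
            _ = _ := mul_one _
        · rw [sum_eq_zero]
          · exact mul_nonneg (ind_nonneg _) h5
          · intro w _
            rw [← ind_and, ind_neg, zero_mul]
            exact fun hh => hne ⟨w, hh⟩
      calc _ ≤ ∑ a, ∑ b, ind (Z b = Z a) * (p a * p b / cz a) :=
            sum_le_sum fun a _ => sum_le_sum fun b _ => e2 a b
        _ ≤ ∑ a, p a := by
            refine sum_le_sum fun a _ => ?_
            have : ∑ b, ind (Z b = Z a) * (p a * p b / cz a) = p a * (cz a / cz a) := by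
              have h6 : cz a = ∑ v, ind (Z v = Z a) * p v := rfl
              conv_rhs => rw [h6, sum_div, mul_sum]
              refine sum_congr rfl fun b _ => ?_
              rw [← h6]
              ring
            rw [this]
            calc p a * (cz a / cz a) ≤ p a * 1 :=
                  mul_le_mul_of_nonneg_left (div_self_le_one _) (hp.nn a)
              _ = p a := mul_one _
        _ = 1 := hp.one
  have e3 : ∀ w, p w * Real.log (cx w * cy w / (ct w * cz w))
      = p w * Real.log (cx w) + p w * Real.log (cy w) - p w * Real.log (ct w)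
        - p w * Real.log (cz w) := by
    intro w
    rcases (hp.nn w).eq_or_lt with h0 | h0
    · rw [← h0]; simp
    · have h1 := cell_pos hp.nn (fun w => (X w, Z w)) h0
      have h2 := cell_pos hp.nn (fun w => (Y w, Z w)) h0
      have h3 := cell_pos hp.nn Z h0
      have h4 := cell_pos hp.nn (fun w => (X w, Y w, Z w)) h0
      rw [Real.log_div (by positivity) (by positivity), Real.log_mul (by positivity) (by positivity),
        Real.log_mul (by positivity) (by positivity)]
      ring
  rw [sum_congr rfl fun w _ => e3 w] at key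
  simp only [sum_sub_distrib, sum_add_distrib] at key
  unfold Hh
  linarith

/-! ### change of space -/

variable {Om' : Type*} [Fintype Om'] {q : Om' → ℝ}

/-- push-forward weights -/
def pf {A : Type*} (p : Om → ℝ) (X : Om → A) (a : A) : ℝ := ∑ w, ind (X w = a) * p w

theorem pf_nonneg (hp : ∀ w, 0 ≤ p w) (X : Om → A) (a : A) : 0 ≤ pf p X a :=
  sum_nonneg fun v _ => mul_nonneg (ind_nonneg _) (hp v)

theorem sum_pf_mul [Fintype A] (X : Om → A) (f : A → ℝ) :
    ∑ a, pf p X a * f a = ∑ w, p w * f (X w) := by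
  unfold pf
  rw [sum_congr rfl fun a _ => sum_mul _ _ _]
  rw [sum_comm]
  refine sum_congr rfl fun w _ => ?_
  rw [sum_eq_single (X w)]
  · rw [ind_pos rfl, one_mul]
  · intro b _ hb
    rw [ind_neg (fun h => hb h.symm)]; simp
  · intro h; exact absurd (mem_univ _) h

theorem isP_pf [Fintype A] (hp : IsP p) (X : Om → A) : IsP (pf p X) := by
  refine ⟨pf_nonneg hp.nn X, ?_⟩
  have := sum_pf_mul (p := p) X (fun _ => 1)
  simpa [hp.one] using this

theorem cell_pf [Fintype A] (X : Om → A) (f : A → B) (w : Om) :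
    cell (pf p X) f (X w) = cell p (fun v => f (X v)) w := by
  unfold cell
  rw [sum_congr rfl fun a _ => mul_comm _ _]
  rw [sum_pf_mul X (fun a => ind (f a = f (X w)))]
  exact sum_congr rfl fun v _ => mul_comm _ _

theorem Hh_pf [Fintype A] (X : Om → A) (f : A → B) :
    Hh (pf p X) f = Hh p (fun v => f (X v)) := by
  unfold Hh
  rw [sum_pf_mul X (fun a => Real.log (cell (pf p X) f a))]
  congr 1
  exact sum_congr rfl fun w _ => by rw [cell_pf]

/-- product weights -/
def pr (p : Om → ℝ) (q : Om' → ℝ) : Om × Om' → ℝ := fun w => p w.1 * q w.2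

theorem isP_pr (hp : IsP p) (hq : IsP q) : IsP (pr p q) := by
  refine ⟨fun w => mul_nonneg (hp.nn _) (hq.nn _), ?_⟩
  unfold pr
  rw [Fintype.sum_prod_type]
  simp only [← mul_sum, hq.one, mul_one, hp.one]

theorem cell_pr (X : Om → A) (Y : Om' → B) (w : Om × Om') :
    cell (pr p q) (fun v => (X v.1, Y v.2)) w = cell p X w.1 * cell q Y w.2 := by
  unfold cell pr
  rw [Fintype.sum_prod_type, sum_mul_sum]
  refine sum_congr rfl fun a _ => sum_congr rfl fun b _ => ?_
  have : ((X a, Y b) = (X w.1, Y w.2)) ↔ (X a = X w.1 ∧ Y b = Y w.2) := by simp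
  rw [ind_congr this, ind_and]
  ring

theorem Hh_pr (hp : IsP p) (hq : IsP q) (X : Om → A) (Y : Om' → B) :
    Hh (pr p q) (fun w => (X w.1, Y w.2)) = Hh p X + Hh q Y := by
  have h1 : ∀ w : Om × Om', pr p q w * Real.log (cell (pr p q) (fun w => (X w.1, Y w.2)) w)
      = q w.2 * (p w.1 * Real.log (cell p X w.1)) + p w.1 * (q w.2 * Real.log (cell q Y w.2)) := by
    intro w
    rw [cell_pr]
    unfold pr
    rcases (hp.nn w.1).eq_or_lt with h0 | h0
    · rw [← h0]; simp
    rcases (hq.nn w.2).eq_or_lt with h2 | h2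
    · rw [← h2]; simp
    rw [Real.log_mul (cell_pos hp.nn X h0).ne' (cell_pos hq.nn Y h2).ne']
    ring
  unfold Hh
  rw [sum_congr rfl fun w _ => h1 w, sum_add_distrib, Fintype.sum_prod_type, Fintype.sum_prod_type]
  simp only [← mul_sum, ← sum_mul, hp.one, hq.one]
  ring

theorem Hh_fst (hp : IsP p) (hq : IsP q) (X : Om → A) :
    Hh (pr p q) (fun w => X w.1) = Hh p X := by
  have h := Hh_pr hp hq X (fun _ => ())
  rw [Hh_const hq (fun _ _ => rfl), add_zero] at h
  rw [← h]
  exact Hh_congr (by simp)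

theorem Hh_snd (hp : IsP p) (hq : IsP q) (Y : Om' → B) :
    Hh (pr p q) (fun w => Y w.2) = Hh q Y := by
  have h := Hh_pr hp hq (fun _ => ()) Y
  rw [Hh_const hp (fun _ _ => rfl), zero_add] at h
  rw [← h]
  exact Hh_congr (by simp)

/-- transport along an equivalence preserving weights -/
theorem Hh_equiv (e : Om ≃ Om') (he : ∀ w, q (e w) = p w) (X : Om' → A) :
    Hh p (fun w => X (e w)) = Hh q X := by
  have hc : ∀ w, cell p (fun w => X (e w)) w = cell q X (e w) := by
    intro w
    unfold cell
    rw [← e.sum_comp]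
    exact sum_congr rfl fun v _ => by rw [he]
  unfold Hh
  rw [← e.sum_comp]
  congr 1
  exact sum_congr rfl fun w _ => by rw [hc, he]

/-! ### conditioning -/

/-- conditional weights given the cell of `Z` containing `w0` -/
def cd (p : Om → ℝ) (Z : Om → C) (w0 : Om) : Om → ℝ :=
  fun w => ind (Z w = Z w0) * (p w / cell p Z w0)

theorem isP_cd (hp : IsP p) (Z : Om → C) {w0 : Om} (h : 0 < p w0) : IsP (cd p Z w0) := by
  have hc := cell_pos hp.nn Z h
  refine ⟨fun w => mul_nonneg (ind_nonneg _) (div_nonneg (hp.nn w) hc.le), ?_⟩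
  unfold cd
  have : ∑ w, ind (Z w = Z w0) * (p w / cell p Z w0) = cell p Z w0 / cell p Z w0 := by
    conv_rhs => rw [cell, sum_div]
    exact sum_congr rfl fun v _ => by rw [mul_div_assoc]; rfl
  rw [this, div_self hc.ne']

theorem cd_eq_of {Z : Om → C} {v w : Om} (h : Z v = Z w) : cd p Z v = cd p Z w := by
  unfold cd; rw [cell_eq_of h, h]

theorem cell_cd (X : Om → A) (Z : Om → C) {w w0 : Om} (h : Z w = Z w0) :
    cell (cd p Z w0) X w = cell p (fun v => (X v, Z v)) w / cell p Z w0 := by
  unfold cell cd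
  rw [sum_div]
  refine sum_congr rfl fun v _ => ?_
  have : ((X v, Z v) = (X w, Z w)) ↔ (X v = X w ∧ Z v = Z w0) := by simp [h]
  rw [ind_congr this, ind_and]
  ring

/-- chain rule: `H(X,Z) - H(Z)` is the average of the conditional entropies -/
theorem Hh_cond (hp : IsP p) (X : Om → A) (Z : Om → C) :
    Hh p (fun w => (X w, Z w)) - Hh p Z = ∑ w0, p w0 * Hh (cd p Z w0) X := by
  have h1 : ∀ w0, p w0 * Hh (cd p Z w0) X
      = - ∑ w, (ind (Z w = Z w0) * (p w0 / cell p Z w0))
          * (p w * (Real.log (cell p (fun v => (X v, Z v)) w) - Real.log (cell p Z w))) := by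
    intro w0
    unfold Hh
    rw [mul_neg, mul_sum]
    congr 1
    refine sum_congr rfl fun w _ => ?_
    by_cases hz : Z w = Z w0
    · rw [cell_cd X Z hz]
      unfold cd
      rw [ind_pos hz, ← cell_eq_of hz]
      rcases (hp.nn w).eq_or_lt with h0 | h0
      · rw [← h0]; simp
      · rw [Real.log_div (cell_pos hp.nn _ h0).ne' (cell_pos hp.nn _ h0).ne']
        ring
    · unfold cd
      rw [ind_neg hz]; simp
  rw [sum_congr rfl fun w0 _ => h1 w0, sum_neg_distrib, sum_comm]
  unfold Hh
  have h2 : ∀ w, ∑ w0, (ind (Z w = Z w0) * (p w0 / cell p Z w0))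
          * (p w * (Real.log (cell p (fun v => (X v, Z v)) w) - Real.log (cell p Z w)))
        = p w * Real.log (cell p (fun v => (X v, Z v)) w) - p w * Real.log (cell p Z w) := by
    intro w
    rw [← sum_mul]
    rcases (hp.nn w).eq_or_lt with h0 | h0
    · rw [← h0]; simp
    · have h3 := sum_div_cell' (p := p) Z w (cell_pos hp.nn Z h0).ne'
      have h4 : ∑ w0, ind (Z w = Z w0) * (p w0 / cell p Z w0) = 1 := by
        rw [← h3]
        exact sum_congr rfl fun v _ => by rw [ind_congr (show Z w = Z v ↔ Z v = Z w from eq_comm)]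
      rw [h4]; ring
  rw [sum_congr rfl fun w _ => h2 w, sum_sub_distrib]
  ring

/-- conditional weights of a product -/
theorem cd_pr (Z : Om → A) (W : Om' → B) (w : Om × Om') :
    cd (pr p q) (fun v => (Z v.1, W v.2)) w = pr (cd p Z w.1) (cd q W w.2) := by
  funext v
  unfold cd
  rw [cell_pr]
  unfold pr
  have : ((Z v.1, W v.2) = (Z w.1, W w.2)) ↔ (Z v.1 = Z w.1 ∧ W v.2 = W w.2) := by simp
  rw [ind_congr this, ind_and]
  simp only []
  rw [mul_div_mul_comm]
  ring

/-! ### conditionally independent copies given `Z` -/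

/-- weights of two conditionally independent copies given `Z` -/
def ci (p : Om → ℝ) (Z : Om → C) : Om × Om → ℝ :=
  fun w => ind (Z w.1 = Z w.2) * (p w.1 * (p w.2 / cell p Z w.2))

theorem sum_ci (hp : IsP p) (Z : Om → C) (F : Om × Om → ℝ) :
    ∑ w, ci p Z w * F w = ∑ w0, p w0 * ∑ v, pr (cd p Z w0) (cd p Z w0) v * F v := by
  have h1 : ∀ v : Om × Om, ∑ w0, p w0 * (pr (cd p Z w0) (cd p Z w0) v * F v)
      = ci p Z v * F v := by
    intro v
    have h2 : ∀ w0, p w0 * (pr (cd p Z w0) (cd p Z w0) v * F v)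
        = (ind (Z w0 = Z v.2) * (p w0 / cell p Z w0)) * (ci p Z v * F v) := by
      intro w0
      unfold pr cd ci
      by_cases h2 : Z w0 = Z v.2
      · by_cases h1 : Z v.1 = Z v.2
        · rw [ind_pos h1, ind_pos h2, ind_pos (h1.trans h2.symm), ind_pos h2.symm,
            ← cell_eq_of h2]
          ring
        · rw [ind_neg h1, ind_neg (fun h => h1 (h.trans h2))]; ring
      · rw [ind_neg h2, ind_neg (P := Z v.2 = Z w0) (fun h => h2 h.symm)]; ring
    rw [sum_congr rfl fun w0 _ => h2 w0, ← sum_mul]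
    rcases (hp.nn v.2).eq_or_lt with h0 | h0
    · have : ci p Z v = 0 := by unfold ci; rw [← h0]; simp
      rw [this]; simp
    · rw [sum_div_cell' Z v.2 (cell_pos hp.nn Z h0).ne', one_mul]
  rw [← sum_congr rfl fun v _ => h1 v, sum_comm]
  exact sum_congr rfl fun w0 _ => by rw [mul_sum]

theorem isP_ci (hp : IsP p) (Z : Om → C) : IsP (ci p Z) := by
  refine ⟨fun w => mul_nonneg (ind_nonneg _) (mul_nonneg (hp.nn _)
    (div_nonneg (hp.nn _) (cell_nonneg hp.nn _ _))), ?_⟩
  have h := sum_ci hp Z (fun _ => 1)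
  simp only [mul_one] at h
  rw [h, ← hp.one]
  refine sum_congr rfl fun w0 _ => ?_
  rcases (hp.nn w0).eq_or_lt with h0 | h0
  · rw [← h0]; simp
  · rw [(isP_pr (isP_cd hp Z h0) (isP_cd hp Z h0)).one, mul_one]

end basic

end H9INV
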